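import Mathlib
import Pool.Agent.H25.TD.World

/-!
Template worlds: routing minimax and the dual criterion for feasibility.
-/

namespace Pool.Agent.H54.TW

open Finset Pool.Agent.H25.TD

/-- The weight of a list. -/
def wt {V : Type*} (l : V → ℝ) (w : List V) : ℝ := (w.map l).sum

lemma wt_nil {V : Type*} (l : V → ℝ) : wt l [] = 0 := by simp [wt]

lemma wt_cons {V : Type*} (l : V → ℝ) (v : V) (w : List V) : wt l (v :: w) = l v + wt l w := by
  simp [wt]

lemma wt_append {V : Type*} (l : V → ℝ) (v w : List V) : wt l (v ++ w) = wt l v + wt l w := by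
  simp [wt]

lemma wt_nonneg {V : Type*} {l : V → ℝ} (hl : ∀ v, 0 ≤ l v) (w : List V) : 0 ≤ wt l w := by
  induction w with
  | nil => simp [wt]
  | cons v w ih => rw [wt_cons]; have := hl v; linarith

lemma wt_sublist {V : Type*} {l : V → ℝ} (hl : ∀ v, 0 ≤ l v) {w' w : List V}
    (h : w'.Sublist w) : wt l w' ≤ wt l w := by
  induction h with
  | slnil => simp
  | cons a _ ih => rw [wt_cons]; have := hl a; linarith
  | cons_cons a _ ih => rw [wt_cons, wt_cons]; linarith

lemma le_wt_of_mem {V : Type*} {l : V → ℝ} (hl : ∀ v, 0 ≤ l v) {w : List V} {v : V}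
    (h : v ∈ w) : l v ≤ wt l w := by
  have h1 := wt_sublist hl (List.singleton_sublist.2 h)
  simpa [wt] using h1

lemma wt_eq_sum_count {V : Type*} [Fintype V] [DecidableEq V] (l : V → ℝ) (w : List V) :
    wt l w = ∑ v, l v * (w.count v : ℝ) := by
  induction w with
  | nil => simp [wt]
  | cons a w ih =>
    rw [wt_cons, ih]
    have : ∀ v, l v * (((a :: w).count v : ℕ) : ℝ)
        = l v * (w.count v : ℝ) + (if a = v then l v else 0) := by
      intro v
      rw [List.count_cons]
      by_cases hv : a = v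
      · subst hv; simp; ring
      · simp [hv]
    rw [Finset.sum_congr rfl (fun v _ => this v), Finset.sum_add_distrib]
    simp [Finset.sum_ite_eq]
    ring

/-- Every chain contains a repetition free chain with the same ends. -/
lemma shorten {V : Type*} [DecidableEq V] (r : V → V → Prop) (b : V) :
    ∀ (w : List V) (a : V), w ≠ [] → List.IsChain r (a :: (w ++ [b])) →
      ∃ w' : List V, w' ≠ [] ∧ w'.Nodup ∧ List.IsChain r (a :: (w' ++ [b])) ∧ w'.Sublist w := by
  intro w
  induction w with
  | nil => intro a h; exact absurd rfl h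
  | cons v t ih =>
    intro a _ hc
    rw [List.cons_append, List.isChain_cons_cons] at hc
    obtain ⟨hav, hc⟩ := hc
    by_cases ht : t = []
    · subst ht
      refine ⟨[v], by simp, by simp, ?_, List.Sublist.refl _⟩
      rw [List.cons_append, List.isChain_cons_cons]
      exact ⟨hav, hc⟩
    · obtain ⟨t', ht'0, ht'1, ht'2, ht'3⟩ := ih v ht hc
      by_cases hv : v ∈ t'
      · obtain ⟨s1, s2, hs⟩ := List.append_of_mem hv
        refine ⟨v :: s2, by simp, ?_, ?_, ?_⟩
        · rw [hs] at ht'1
          exact (List.nodup_append.1 ht'1).2.1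
        · rw [List.cons_append, List.isChain_cons_cons]
          refine ⟨hav, ?_⟩
          rw [hs] at ht'2
          have h1 : (v :: ((s1 ++ v :: s2) ++ [b])) = (v :: s1) ++ (v :: (s2 ++ [b])) := by simp
          rw [h1] at ht'2
          exact ht'2.right_of_append
        · have h2 : (v :: s2).Sublist t' := by
            rw [hs]; exact List.sublist_append_right _ _
          exact (h2.trans ht'3).trans (List.sublist_cons_self _ _)
      · refine ⟨v :: t', by simp, List.nodup_cons.2 ⟨hv, ht'1⟩, ?_, ht'3.cons_cons _⟩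
        rw [List.cons_append, List.isChain_cons_cons]
        exact ⟨hav, ht'2⟩

/-- Routing minimax. -/
theorem routing_minimax {ι V : Type} [Fintype ι] [DecidableEq ι] [Fintype V] [DecidableEq V]
    (R : ι → Finset (List V)) (D : ι → ℝ) (hD : ∀ i, 0 ≤ D i) (x : V → ℝ)
    (h : ∀ l : V → ℝ, (∀ v, 0 ≤ l v) → ∃ w : ι → List V, (∀ i, w i ∈ R i) ∧
      ∑ i, D i * wt l (w i) ≤ ∑ v, x v * l v) :
    ∃ g : ι → List V → ℝ, (∀ i w, 0 ≤ g i w) ∧ (∀ i w, g i w ≠ 0 → w ∈ R i) ∧
      (∀ i, ∑ w ∈ R i, g i w = D i) ∧
      ∀ v, ∑ i, ∑ w ∈ R i, g i w * (w.count v : ℝ) ≤ x v := by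
  classical
  let F := ∀ i, {w : List V // w ∈ R i}
  let c : F → V → ℝ := fun f v => ∑ i, D i * (((f i : List V).count v : ℕ) : ℝ)
  let L : (F → ℝ) → (V → ℝ) := fun μ v => ∑ f, μ f * c f v
  have hL : IsLinearMap ℝ L := by
    refine ⟨fun a b => ?_, fun r a => ?_⟩
    · funext v
      simp only [L, Pi.add_apply, ← sum_add_distrib]
      refine sum_congr rfl fun f _ => ?_
      ring
    · funext v
      simp only [L, Pi.smul_apply, smul_eq_mul, mul_sum]
      refine sum_congr rfl fun f _ => ?_
      ring
  have hLc : Continuous L := by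
    refine continuous_pi fun v => continuous_finsetSum _ fun f _ => ?_
    exact (continuous_apply f).mul continuous_const
  set K : Set (V → ℝ) := L '' stdSimplex ℝ F with hK
  have hKconv : Convex ℝ K := (convex_stdSimplex ℝ F).is_linear_image hL
  have hKcomp : IsCompact K := (isCompact_stdSimplex ℝ F).image hLc
  set U : Set (V → ℝ) := {y | ∀ v, y v ≤ x v} with hU
  have hUconv : Convex ℝ U := by
    intro y hy z hz a b ha hb hab v
    have h1 := hy v
    have h2 := hz v
    simp only [Pi.add_apply, Pi.smul_apply, smul_eq_mul]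
    have h3 := mul_le_mul_of_nonneg_left h1 ha
    have h4 := mul_le_mul_of_nonneg_left h2 hb
    have h5 : x v = a * x v + b * x v := by rw [← add_mul, hab, one_mul]
    linarith
  have hUcl : IsClosed U := by
    have : U = ⋂ v, {y : V → ℝ | y v ≤ x v} := by ext y; simp [hU]
    rw [this]
    exact isClosed_iInter fun v => isClosed_le (continuous_apply v) continuous_const
  have hint : (K ∩ U).Nonempty := by
    by_contra hemp
    rw [Set.not_nonempty_iff_eq_empty] at hemp
    obtain ⟨f, u, v, hf1, huv, hf2⟩ := geometric_hahn_banach_compact_closed hKconv hKcomp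
      hUconv hUcl (Set.disjoint_iff_inter_eq_empty.2 hemp)
    set n : V → ℝ := fun e => f (Pi.single e 1) with hndef
    have hfx : ∀ y : V → ℝ, f y = ∑ e, y e * n e := by
      intro y
      have : y = ∑ e, y e • (Pi.single e (1 : ℝ) : V → ℝ) := by
        funext e'
        simp [Finset.sum_apply, Pi.single_apply]
      conv_lhs => rw [this]
      rw [map_sum]
      refine sum_congr rfl fun e _ => ?_
      rw [map_smul, smul_eq_mul]
    -- n ≤ 0
    have hn : ∀ e, n e ≤ 0 := by
      intro e
      by_contra hpos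
      rw [not_le] at hpos
      -- take y = x - t single e
      have hy : ∀ t : ℝ, 0 ≤ t → v < f x - t * n e := by
        intro t ht
        have h1 := hf2 (x - t • (Pi.single e (1 : ℝ) : V → ℝ)) (by
          intro e'
          simp only [Pi.sub_apply, Pi.smul_apply, smul_eq_mul, Pi.single_apply]
          split_ifs <;> nlinarith)
        rw [map_sub, map_smul, smul_eq_mul] at h1
        exact h1
      have h0 := hy 0 le_rfl
      have h1 := hy ((f x - v) / n e) (div_nonneg (by linarith) hpos.le)
      rw [div_mul_cancel₀ _ hpos.ne'] at h1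
      linarith
    obtain ⟨w, hw1, hw2⟩ := h (fun e => - n e) (fun e => by have := hn e; linarith)
    let f0 : F := fun i => ⟨w i, hw1 i⟩
    have hmem : L (Pi.single f0 1) ∈ K := ⟨_, single_mem_stdSimplex ℝ f0, rfl⟩
    have h1 := hf1 _ hmem
    have h2 := hf2 x (fun _ => le_rfl)
    rw [hfx] at h1 h2
    have h3 : ∀ e, L (Pi.single f0 1) e = c f0 e := by
      intro e
      simp only [L]
      rw [Finset.sum_eq_single f0]
      · simp
      · intro g _ hg; simp [hg]
      · simp
    have h4 : ∑ e, L (Pi.single f0 1) e * n e = - ∑ i, D i * wt (fun e => - n e) (w i) := by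
      simp only [h3, c, f0]
      rw [← Finset.sum_neg_distrib]
      simp only [Finset.sum_mul]
      rw [Finset.sum_comm]
      refine sum_congr rfl fun i _ => ?_
      rw [wt_eq_sum_count, Finset.mul_sum, ← Finset.sum_neg_distrib]
      refine sum_congr rfl fun e _ => ?_
      ring
    have h5 : ∑ e, x e * (- n e) = - ∑ e, x e * n e := by
      rw [← Finset.sum_neg_distrib]
      exact sum_congr rfl fun e _ => by ring
    rw [h4] at h1
    rw [h5] at hw2
    linarith
  obtain ⟨y, ⟨μ, hμ, rfl⟩, hyU⟩ := hint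
  refine ⟨fun i w => D i * ∑ f : F, if (f i : List V) = w then μ f else 0, ?_, ?_, ?_, ?_⟩
  · intro i w
    refine mul_nonneg (hD i) (sum_nonneg fun f _ => ?_)
    split_ifs
    · exact hμ.1 f
    · exact le_rfl
  · intro i w hne
    by_contra hw
    apply hne
    have : ∑ f : F, (if (f i : List V) = w then μ f else 0) = 0 := by
      refine sum_eq_zero fun f _ => ?_
      rw [if_neg]
      rintro rfl
      exact hw (f i).2
    simp [this]
  · intro i
    rw [← Finset.mul_sum, Finset.sum_comm]
    have : ∀ f : F, ∑ w ∈ R i, (if (f i : List V) = w then μ f else 0) = μ f := by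
      intro f
      rw [Finset.sum_ite_eq, if_pos (f i).2]
    rw [Finset.sum_congr rfl (fun f _ => this f), hμ.2, mul_one]
  · intro v
    refine le_trans (le_of_eq ?_) (hyU v)
    simp only [L, c]
    simp only [Finset.mul_sum]
    rw [Finset.sum_comm (s := (Finset.univ : Finset F))]
    refine sum_congr rfl fun i _ => ?_
    simp only [Finset.sum_mul]
    rw [Finset.sum_comm]
    refine sum_congr rfl fun f _ => ?_
    rw [Finset.sum_eq_single (f i : List V)]
    · simp; ring
    · intro w _ hw
      rw [if_neg (Ne.symm hw)]; simp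
    · intro hw; exact absurd (f i).2 hw

/-- The demand between two types. -/
noncomputable def dem {m : ℕ} (W : World m) (b : Fin m → ℝ) (i j : Fin m) : ℝ :=
  if i < j then (1 - W.p i j) * b i * b j else if i = j then b i ^ 2 / 2 else 0

lemma dem_nonneg {m : ℕ} (W : World m) {b : Fin m → ℝ} (hb : ∀ i, 0 ≤ b i) (i j : Fin m) :
    0 ≤ dem W b i j := by
  unfold dem
  split_ifs
  · have h1 := W.p_le i j
    have h2 := hb i
    have h3 := hb j
    have h4 : 0 ≤ 1 - W.p i j := by linarith
    positivity
  · positivity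
  · exact le_rfl

/-- The dual criterion: if for every nonnegative weight on the types all demands can be routed
along routes with total cost at most the weight of the world, then `b` is feasible. -/
theorem feas_of_dual {m : ℕ} (W : World m) (b : Fin m → ℝ) (hb0 : ∀ i, 0 ≤ b i)
    (hb1 : ∑ i, b i = 1)
    (h : ∀ l : Fin m → ℝ, (∀ i, 0 ≤ l i) → ∃ w : Fin m → Fin m → List (Fin m),
      (∀ i j, dem W b i j ≠ 0 → IsRoute W.p i j (w i j)) ∧
      ∑ i, ∑ j, dem W b i j * wt l (w i j) ≤ ∑ i, W.x i * l i) : Feas W b := by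
  classical
  let Ω : Finset (List (Fin m)) :=
    (Finset.univ : Finset {l : List (Fin m) // l.Nodup}).image Subtype.val
  have hΩ : ∀ w : List (Fin m), w ∈ Ω ↔ w.Nodup := by
    intro w; simp [Ω]
  let R : Fin m × Fin m → Finset (List (Fin m)) := fun c =>
    if dem W b c.1 c.2 = 0 then {[]} else Ω.filter (fun w => IsRoute W.p c.1 c.2 w)
  obtain ⟨g, hg1, hg2, hg3, hg4⟩ := routing_minimax R (fun c => dem W b c.1 c.2)
    (fun c => dem_nonneg W hb0 _ _) W.x (by
      intro l hl
      obtain ⟨w, hw1, hw2⟩ := h l hl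
      have hw' : ∀ c : Fin m × Fin m, ∃ w' ∈ R c,
          dem W b c.1 c.2 * wt l w' ≤ dem W b c.1 c.2 * wt l (w c.1 c.2) := by
        intro c
        by_cases hc : dem W b c.1 c.2 = 0
        · refine ⟨[], by simp [R, hc], by simp [hc]⟩
        · obtain ⟨hne, hch⟩ := hw1 c.1 c.2 hc
          obtain ⟨w', h0, h1, h2, h3⟩ := shorten _ _ _ _ hne hch
          refine ⟨w', ?_, ?_⟩
          · simp only [R, if_neg hc, mem_filter, hΩ]
            exact ⟨h1, h0, h2⟩
          · exact mul_le_mul_of_nonneg_left (wt_sublist hl h3) (dem_nonneg W hb0 _ _)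
      choose w' hw'1 hw'2 using hw'
      refine ⟨w', hw'1, ?_⟩
      refine le_trans (Finset.sum_le_sum fun c _ => hw'2 c) ?_
      rw [Fintype.sum_prod_type]
      exact hw2)
  -- g vanishes when the demand vanishes
  have hz : ∀ c : Fin m × Fin m, dem W b c.1 c.2 = 0 → ∀ w, g c w = 0 := by
    intro c hc w
    by_contra hne
    have hw := hg2 c w hne
    have h1 := hg3 c
    rw [hc] at h1
    exact hne ((Finset.sum_eq_zero_iff_of_nonneg (fun w _ => hg1 c w)).1 h1 w hw)
  have hroute : ∀ c : Fin m × Fin m, ∀ w, g c w ≠ 0 →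
      dem W b c.1 c.2 ≠ 0 ∧ w ∈ Ω ∧ IsRoute W.p c.1 c.2 w := by
    intro c w hne
    have hc : dem W b c.1 c.2 ≠ 0 := fun hc => hne (hz c hc w)
    have hw := hg2 c w hne
    simp only [R, if_neg hc, mem_filter] at hw
    exact ⟨hc, hw.1, hw.2⟩
  have hsum : ∀ c : Fin m × Fin m, ∀ f : List (Fin m) → ℝ,
      ∑ w ∈ Ω, g c w * f w = ∑ w ∈ R c, g c w * f w := by
    intro c f
    by_cases hc : dem W b c.1 c.2 = 0
    · simp [hz c hc]
    · symm
      apply Finset.sum_subset
      · simp only [R, if_neg hc]; exact Finset.filter_subset _ _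
      · intro w _ hw
        have : g c w = 0 := by
          by_contra hne; exact hw (hg2 c w hne)
        simp [this]
  have hsum1 : ∀ c : Fin m × Fin m, ∑ w ∈ Ω, g c w = dem W b c.1 c.2 := by
    intro c
    have h1 := hsum c (fun _ => 1)
    simp only [mul_one] at h1
    rw [h1, hg3 c]
  refine ⟨hb0, hb1, Ω, fun i j w => g (i, j) w, fun i j w => hg1 _ _, ?_, ?_, ?_, ?_⟩
  · intro i j w hne
    obtain ⟨h1, h2, h3⟩ := hroute (i, j) w hne
    refine ⟨?_, h2, h3⟩
    by_contra hij
    apply h1
    simp only [dem]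
    rw [if_neg (fun h => hij h.le), if_neg (fun h => hij h.le)]
  · intro i j hij
    rw [hsum1 (i, j)]
    simp [dem, hij]
  · intro i
    rw [hsum1 (i, i)]
    simp [dem]
  · intro v
    refine le_trans (le_of_eq ?_) (hg4 v)
    rw [Fintype.sum_prod_type]
    exact sum_congr rfl fun i _ => sum_congr rfl fun j _ => hsum (i, j) _

end Pool.Agent.H54.TW
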