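import Mathlib
import Pool.Agent.H25.TD.World
import Pool.Agent.H54.TW.Dual

/-!
Template worlds: a two type branch distribution on an edge is feasible iff four inequalities hold.
-/

namespace Pool.Agent.H54.TW

open Finset Pool.Agent.H25.TD MeasureTheory

/-- The neighbours of a type. -/
noncomputable def nbr {m : ℕ} (W : World m) (i : Fin m) : Finset (Fin m) :=
  Finset.univ.filter (fun v => 0 < W.p i v)

lemma mem_nbr {m : ℕ} (W : World m) (i v : Fin m) : v ∈ nbr W i ↔ 0 < W.p i v := by
  simp [nbr]

/-- The mass of the neighbourhood. -/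
noncomputable def nu {m : ℕ} (W : World m) (i : Fin m) : ℝ := ∑ v ∈ nbr W i, W.x v

/-- `S` meets all routes from `i` to `j`. -/
def IsSep {m : ℕ} (W : World m) (i j : Fin m) (S : Finset (Fin m)) : Prop :=
  ∀ w, IsRoute W.p i j w → ∃ v ∈ w, v ∈ S

lemma cover_len {m : ℕ} (x : Fin m → ℝ) (a b : Fin m → ℝ) (c e K : ℝ)
    (hce : c ≤ e)
    (h : ∀ θ, c < θ → θ ≤ e → K ≤ ∑ z with (a z < θ ∧ θ ≤ b z), x z) :
    K * (e - c) ≤ ∑ z, x z * max 0 (min (b z) e - max (a z) c) := by
  have h1 : ∀ z, ∫ θ in Set.Ioc c e, (Set.Ioc (a z) (b z)).indicator (fun _ => x z) θ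
      = x z * max 0 (min (b z) e - max (a z) c) := by
    intro z
    rw [setIntegral_indicator measurableSet_Ioc, setIntegral_const, Set.Ioc_inter_Ioc, smul_eq_mul,
      Measure.real, Real.volume_Ioc]
    rw [mul_comm]
    congr 1
    rw [min_comm (b z) e, max_comm (a z) c]
    by_cases hh : 0 ≤ min e (b z) - max c (a z)
    · rw [ENNReal.toReal_ofReal hh, max_eq_right hh]
    · rw [not_le] at hh
      rw [ENNReal.ofReal_of_nonpos hh.le, max_eq_left hh.le]
      simp
  have hint : ∀ z, IntegrableOn (fun θ => (Set.Ioc (a z) (b z)).indicator (fun _ => x z) θ)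
      (Set.Ioc c e) := by
    intro z
    exact (integrableOn_const (by simp)).indicator measurableSet_Ioc
  have h2 : ∫ θ in Set.Ioc c e, ∑ z, (Set.Ioc (a z) (b z)).indicator (fun _ => x z) θ
      = ∑ z, x z * max 0 (min (b z) e - max (a z) c) := by
    rw [integral_finsetSum _ (fun z _ => hint z)]
    exact sum_congr rfl fun z _ => h1 z
  rw [← h2]
  have h3 : K * (e - c) = ∫ θ in Set.Ioc c e, K := by
    rw [setIntegral_const, smul_eq_mul, Measure.real, Real.volume_Ioc,
      ENNReal.toReal_ofReal (by linarith)]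
    ring
  rw [h3]
  refine setIntegral_mono_on (integrableOn_const (by simp))
    (integrable_finsetSum _ (fun z _ => hint z)) measurableSet_Ioc ?_
  intro θ hθ
  refine (h θ hθ.1 hθ.2).trans (le_of_eq ?_)
  rw [Finset.sum_filter]
  refine sum_congr rfl fun z _ => ?_
  simp only [Set.indicator, Set.mem_Ioc]

/-- Coarea inequality. -/
lemma coarea {m : ℕ} (W : World m) (i j : Fin m) (l : Fin m → ℝ) (hl : ∀ v, 0 ≤ l v)
    (K : ℝ) (hK : ∀ S, IsSep W i j S → K ≤ ∑ v ∈ S, W.x v)
    (d : ℝ) (hd : ∀ w, IsRoute W.p i j w → d ≤ wt l w)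
    (m1 m2 : ℝ) (hm1 : 0 ≤ m1) (hm2 : 0 ≤ m2)
    (h1 : ∀ v ∈ nbr W i, m1 ≤ l v) (h2 : ∀ v ∈ nbr W j, m2 ≤ l v) (h12 : m1 + m2 ≤ d) :
    m1 * nu W i + m2 * nu W j + (d - m1 - m2) * K ≤ ∑ v, W.x v * l v := by
  classical
  let T : Fin m → Set ℝ := fun z =>
    insert (max d 0) {t | ∃ s : List (Fin m), List.IsChain (fun a b => 0 < W.p a b) ((z :: s) ++ [j]) ∧
      t = wt l (z :: s)}
  have hTb : ∀ z, BddBelow (T z) := by
    intro z
    refine ⟨0, ?_⟩
    rintro t (rfl | ⟨s, -, rfl⟩)
    · exact le_max_right _ _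
    · exact wt_nonneg hl _
  have hTn : ∀ z, (T z).Nonempty := fun z => ⟨_, Set.mem_insert _ _⟩
  let δ : Fin m → ℝ := fun z => sInf (T z)
  have hδN : ∀ z, 0 < W.p z j → δ z ≤ l z := by
    intro z hz
    refine (csInf_le (hTb z) (Or.inr ⟨[], ?_, rfl⟩)).trans (by simp [wt])
    simpa using hz
  have hδstep : ∀ z z', 0 < W.p z z' → δ z ≤ l z + δ z' := by
    intro z z' hzz
    have : δ z - l z ≤ δ z' := by
      refine le_csInf (hTn z') ?_
      rintro t (rfl | ⟨s, hs, rfl⟩)
      · have h3 : δ z ≤ max d 0 := csInf_le (hTb z) (Set.mem_insert _ _)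
        have := hl z
        linarith
      · have h3 : δ z ≤ wt l (z :: z' :: s) := by
          refine csInf_le (hTb z) (Or.inr ⟨z' :: s, ?_, rfl⟩)
          rw [List.cons_append, List.cons_append, List.isChain_cons_cons]
          exact ⟨hzz, by simpa using hs⟩
        rw [wt_cons] at h3
        linarith
    linarith
  have hδd : ∀ z, 0 < W.p i z → d ≤ δ z := by
    intro z hz
    refine le_csInf (hTn z) ?_
    rintro t (rfl | ⟨s, hs, rfl⟩)
    · exact le_max_left _ _
    · refine hd _ ⟨by simp, ?_⟩
      rw [List.cons_append, List.isChain_cons_cons]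
      exact ⟨hz, by simpa using hs⟩
  have hδd' : ∀ z, δ z ≤ max d 0 := fun z => csInf_le (hTb z) (Set.mem_insert _ _)
  -- level sets are separators
  have hsep : ∀ θ, 0 < θ → θ ≤ d →
      IsSep W i j (Finset.univ.filter (fun z => δ z - l z < θ ∧ θ ≤ δ z)) := by
    intro θ hθ0 hθd w hw
    by_contra hcon
    push Not at hcon
    have hcon' : ∀ z ∈ w, δ z - l z < θ → δ z < θ := by
      intro z hz h3
      by_contra h4
      rw [not_lt] at h4
      exact hcon z hz (by simp [h3, h4])
    have key : ∀ (s : List (Fin m)) (z : Fin m),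
        List.IsChain (fun a b => 0 < W.p a b) ((z :: s) ++ [j]) → (∀ v ∈ z :: s, v ∈ w) →
        δ z < θ := by
      intro s
      induction s with
      | nil =>
        intro z hc hz
        have hzj : 0 < W.p z j := by simpa using hc
        have := hδN z hzj
        exact hcon' z (hz z (by simp)) (by linarith)
      | cons z' s ih =>
        intro z hc hz
        rw [List.cons_append, List.cons_append, List.isChain_cons_cons] at hc
        have h3 := ih z' (by simpa using hc.2) (fun v hv => hz v (by simp at hv ⊢; tauto))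
        have h4 := hδstep z z' hc.1
        exact hcon' z (hz z (by simp)) (by linarith)
    obtain ⟨hne, hch⟩ := hw
    cases w with
    | nil => exact hne rfl
    | cons z s =>
      rw [List.cons_append, List.isChain_cons_cons] at hch
      have h3 := key s z (by simpa using hch.2) (fun v hv => hv)
      have h4 := hδd z hch.1
      linarith
  have hcov := cover_len W.x (fun z => δ z - l z) δ m2 (d - m1) K (by linarith) (by
    intro θ h3 h4
    exact hK _ (hsep θ (by linarith) (by linarith)))
  have hmax : max d 0 = d := max_eq_left (by linarith)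
  have hpt : ∀ z, W.x z * max 0 (min (δ z) (d - m1) - max (δ z - l z) m2)
      ≤ W.x z * (l z - (if 0 < W.p i z then m1 else 0) - (if 0 < W.p j z then m2 else 0)) := by
    intro z
    refine mul_le_mul_of_nonneg_left ?_ (W.x_pos z).le
    have e1 : min (δ z) (d - m1) ≤ δ z := min_le_left _ _
    have e2 : min (δ z) (d - m1) ≤ d - m1 := min_le_right _ _
    have e3 : δ z - l z ≤ max (δ z - l z) m2 := le_max_left _ _
    have e4 : m2 ≤ max (δ z - l z) m2 := le_max_right _ _
    have e5 := hl z
    by_cases hi : 0 < W.p i z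
    · have hi1 := h1 z ((mem_nbr W i z).2 hi)
      have hi2 := hδd z hi
      have hi3 := hδd' z
      rw [hmax] at hi3
      by_cases hj : 0 < W.p j z
      · have hj1 := h2 z ((mem_nbr W j z).2 hj)
        have hj2 := hδN z (by rw [W.p_symm]; exact hj)
        simp only [hi, hj, if_true]
        refine max_le ?_ ?_ <;> linarith
      · simp only [hi, hj, if_true, if_false]
        refine max_le ?_ ?_ <;> linarith
    · by_cases hj : 0 < W.p j z
      · have hj1 := h2 z ((mem_nbr W j z).2 hj)
        have hj2 := hδN z (by rw [W.p_symm]; exact hj)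
        simp only [hi, hj, if_true, if_false]
        refine max_le ?_ ?_ <;> linarith
      · simp only [hi, hj, if_false]
        refine max_le ?_ ?_ <;> linarith
  have htot := hcov.trans (Finset.sum_le_sum fun z _ => hpt z)
  have hexp : ∑ z, W.x z * (l z - (if 0 < W.p i z then m1 else 0) - (if 0 < W.p j z then m2 else 0))
      = ∑ z, W.x z * l z - m1 * nu W i - m2 * nu W j := by
    simp only [mul_sub, Finset.sum_sub_distrib]
    congr 1
    · congr 1
      rw [nu, nbr, Finset.mul_sum, Finset.sum_filter]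
      refine sum_congr rfl fun z _ => ?_
      split_ifs <;> ring
    · rw [nu, nbr, Finset.mul_sum, Finset.sum_filter]
      refine sum_congr rfl fun z _ => ?_
      split_ifs <;> ring
  rw [hexp] at htot
  linarith

lemma route_first {m : ℕ} {p : Fin m → Fin m → ℝ} {i j : Fin m} {w : List (Fin m)}
    (h : IsRoute p i j w) : ∃ v ∈ w, 0 < p i v := by
  obtain ⟨hne, hch⟩ := h
  cases w with
  | nil => exact absurd rfl hne
  | cons z s =>
    rw [List.cons_append, List.isChain_cons_cons] at hch
    exact ⟨z, by simp, hch.1⟩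

lemma route_reverse {m : ℕ} {p : Fin m → Fin m → ℝ} (hs : ∀ i j, p i j = p j i) {i j : Fin m}
    {w : List (Fin m)} (h : IsRoute p i j w) : IsRoute p j i w.reverse := by
  obtain ⟨hne, hch⟩ := h
  refine ⟨by simpa using hne, ?_⟩
  have h1 : (j :: (w.reverse ++ [i])) = (i :: (w ++ [j])).reverse := by simp
  rw [h1, List.isChain_reverse]
  refine hch.imp ?_
  intro a b hab
  change 0 < p b a
  rw [hs]; exact hab

lemma route_last {m : ℕ} {p : Fin m → Fin m → ℝ} (hs : ∀ i j, p i j = p j i) {i j : Fin m}
    {w : List (Fin m)} (h : IsRoute p i j w) : ∃ v ∈ w, 0 < p v j := by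
  obtain ⟨v, hv, hv2⟩ := route_first (route_reverse hs h)
  exact ⟨v, by simpa using hv, by rw [hs]; exact hv2⟩

lemma isSep_symm {m : ℕ} (W : World m) {i j : Fin m} {S : Finset (Fin m)}
    (h : IsSep W i j S) : IsSep W j i S := by
  intro w hw
  obtain ⟨v, hv, hv2⟩ := h _ (route_reverse W.p_symm hw)
  exact ⟨v, by simpa using hv, hv2⟩

lemma sum_three {m : ℕ} (i j : Fin m) (hij : i ≠ j) (F : Fin m → Fin m → ℝ)
    (h : ∀ a b, F a b ≠ 0 → (a = i ∧ b = i) ∨ (a = j ∧ b = j) ∨ (a = i ∧ b = j)) :
    ∑ a, ∑ b, F a b = F i i + F j j + F i j := by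
  classical
  rw [← Fintype.sum_prod_type' (f := F)]
  rw [← Finset.sum_subset (Finset.subset_univ ({(i, i), (j, j), (i, j)} : Finset (Fin m × Fin m)))]
  · rw [Finset.sum_insert, Finset.sum_insert, Finset.sum_singleton]
    · ring
    · simp [hij.symm]
    · simp [hij]
  · rintro ⟨a, b⟩ _ hab
    by_contra hne
    apply hab
    rcases h a b hne with ⟨rfl, rfl⟩ | ⟨rfl, rfl⟩ | ⟨rfl, rfl⟩ <;> simp

theorem feas_edge_lt {m : ℕ} (W : World m) (i j : Fin m) (hij : i < j) (hp : 0 < W.p i j)
    (b1 b2 : ℝ) (h1 : 0 ≤ b1) (h2 : 0 ≤ b2) (hs : b1 + b2 = 1)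
    (F1 : b1 ^ 2 / 2 + (1 - W.p i j) * b1 * b2 ≤ nu W i)
    (F2 : b2 ^ 2 / 2 + (1 - W.p i j) * b1 * b2 ≤ nu W j)
    (F12 : b1 ^ 2 / 2 + b2 ^ 2 / 2 + (1 - W.p i j) * b1 * b2 ≤ ∑ v ∈ nbr W i ∪ nbr W j, W.x v)
    (hcut : ∀ S, IsSep W i j S → (1 - W.p i j) * b1 * b2 ≤ ∑ v ∈ S, W.x v) :
    ∃ b, Feas W b := by
  classical
  have hne : i ≠ j := hij.ne
  let b : Fin m → ℝ := fun v => if v = i then b1 else if v = j then b2 else 0
  have hbi : b i = b1 := by simp [b]
  have hbj : b j = b2 := by simp [b, hne.symm]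
  have hb0 : ∀ v, 0 ≤ b v := by
    intro v; simp only [b]; split_ifs <;> first | assumption | exact le_rfl
  have hbz : ∀ v, v ≠ i → v ≠ j → b v = 0 := by
    intro v h3 h4; simp [b, h3, h4]
  refine ⟨b, feas_of_dual W b hb0 ?_ ?_⟩
  · rw [← Finset.sum_subset (Finset.subset_univ ({i, j} : Finset (Fin m)))]
    · rw [Finset.sum_pair hne, hbi, hbj, hs]
    · intro v _ hv
      simp only [Finset.mem_insert, Finset.mem_singleton, not_or] at hv
      exact hbz v hv.1 hv.2
  · intro l hl
    have hpji : 0 < W.p j i := by rw [W.p_symm]; exact hp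
    obtain ⟨z1, hz1, hz1'⟩ := Finset.exists_min_image (nbr W i) l ⟨j, (mem_nbr W i j).2 hp⟩
    obtain ⟨z2, hz2, hz2'⟩ := Finset.exists_min_image (nbr W j) l ⟨i, (mem_nbr W j i).2 hpji⟩
    rw [mem_nbr] at hz1 hz2
    -- minimal route
    let Ω : Finset (List (Fin m)) :=
      (Finset.univ : Finset {l : List (Fin m) // l.Nodup}).image Subtype.val
    have hΩ : ∀ w : List (Fin m), w ∈ Ω ↔ w.Nodup := by
      intro w; simp [Ω]
    obtain ⟨w0, hw0, hw0'⟩ := Finset.exists_min_image (Ω.filter (fun w => IsRoute W.p i j w))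
      (wt l) ⟨[j, i], by
        rw [Finset.mem_filter, hΩ]
        refine ⟨by simp [hne.symm], by simp, ?_⟩
        simp [hp, hpji]⟩
    rw [Finset.mem_filter] at hw0
    have hd : ∀ w, IsRoute W.p i j w → wt l w0 ≤ wt l w := by
      intro w hw
      obtain ⟨w', h3, h4, h5, h6⟩ := shorten _ _ _ _ hw.1 hw.2
      refine (hw0' w' ?_).trans (wt_sublist hl h6)
      rw [Finset.mem_filter, hΩ]
      exact ⟨h4, h3, h5⟩
    set d := wt l w0 with hddef
    have hdm1 : l z1 ≤ d := by
      obtain ⟨v, hv, hv2⟩ := route_first hw0.2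
      exact (hz1' v ((mem_nbr W i v).2 hv2)).trans (le_wt_of_mem hl hv)
    have hdm2 : l z2 ≤ d := by
      obtain ⟨v, hv, hv2⟩ := route_last W.p_symm hw0.2
      exact (hz2' v ((mem_nbr W j v).2 (by rw [W.p_symm]; exact hv2))).trans (le_wt_of_mem hl hv)
    have hmain : b1 ^ 2 / 2 * l z1 + b2 ^ 2 / 2 * l z2 + (1 - W.p i j) * b1 * b2 * d
        ≤ ∑ v, W.x v * l v := by
      have hl1 := hl z1
      have hl2 := hl z2
      by_cases hcase : l z1 + l z2 ≤ d
      · have hco := coarea W i j l hl ((1 - W.p i j) * b1 * b2) hcut d hd (l z1) (l z2) hl1 hl2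
          hz1' hz2' hcase
        have e1 := mul_le_mul_of_nonneg_left F1 hl1
        have e2 := mul_le_mul_of_nonneg_left F2 hl2
        linarith
      · rw [not_le] at hcase
        have hpt : ∀ v, W.x v * ((d - l z2) * (if 0 < W.p i v then 1 else 0)
            + (d - l z1) * (if 0 < W.p j v then 1 else 0)
            + (l z1 + l z2 - d) * (if 0 < W.p i v ∨ 0 < W.p j v then 1 else 0))
            ≤ W.x v * l v := by
          intro v
          refine mul_le_mul_of_nonneg_left ?_ (W.x_pos v).le
          by_cases hi : 0 < W.p i v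
          · have hi1 := hz1' v ((mem_nbr W i v).2 hi)
            by_cases hj : 0 < W.p j v
            · have hr : d ≤ wt l [v] := hd [v] ⟨by simp, by
                simp only [List.cons_append, List.nil_append]
                rw [List.isChain_cons_cons, List.isChain_cons_cons]
                exact ⟨hi, by rw [W.p_symm]; exact hj, List.isChain_singleton _⟩⟩
              simp only [wt, List.map_cons, List.map_nil, List.sum_cons, List.sum_nil] at hr
              simp only [hi, hj, true_or, if_true]
              linarith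
            · simp only [hi, hj, true_or, if_true, if_false]
              linarith
          · by_cases hj : 0 < W.p j v
            · have hj1 := hz2' v ((mem_nbr W j v).2 hj)
              simp only [hi, hj, or_true, if_true, if_false]
              linarith
            · simp only [hi, hj, or_self, if_false]
              have := hl v
              linarith
        have hsum := Finset.sum_le_sum (s := Finset.univ) fun v _ => hpt v
        have hexp : ∑ v, W.x v * ((d - l z2) * (if 0 < W.p i v then 1 else 0)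
            + (d - l z1) * (if 0 < W.p j v then 1 else 0)
            + (l z1 + l z2 - d) * (if 0 < W.p i v ∨ 0 < W.p j v then 1 else 0))
            = (d - l z2) * nu W i + (d - l z1) * nu W j
              + (l z1 + l z2 - d) * ∑ v ∈ nbr W i ∪ nbr W j, W.x v := by
          have hU : nbr W i ∪ nbr W j
              = Finset.univ.filter (fun v => 0 < W.p i v ∨ 0 < W.p j v) := by
            ext v; simp [nbr]
          rw [hU, nu, nu, nbr, nbr, Finset.sum_filter, Finset.sum_filter, Finset.sum_filter,
            Finset.mul_sum, Finset.mul_sum, Finset.mul_sum, ← Finset.sum_add_distrib,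
            ← Finset.sum_add_distrib]
          refine Finset.sum_congr rfl fun v _ => ?_
          split_ifs <;> ring
        rw [hexp] at hsum
        have e1 := mul_le_mul_of_nonneg_left F1 (by linarith : 0 ≤ d - l z2)
        have e2 := mul_le_mul_of_nonneg_left F2 (by linarith : 0 ≤ d - l z1)
        have e3 := mul_le_mul_of_nonneg_left F12 (by linarith : 0 ≤ l z1 + l z2 - d)
        have e4 : b1 ^ 2 / 2 * l z1 + b2 ^ 2 / 2 * l z2 + (1 - W.p i j) * b1 * b2 * d
          = (d - l z2) * (b1 ^ 2 / 2 + (1 - W.p i j) * b1 * b2)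
            + (d - l z1) * (b2 ^ 2 / 2 + (1 - W.p i j) * b1 * b2)
            + (l z1 + l z2 - d) * (b1 ^ 2 / 2 + b2 ^ 2 / 2 + (1 - W.p i j) * b1 * b2) := by ring
        rw [e4]
        linarith
    let w : Fin m → Fin m → List (Fin m) := fun a c =>
      if a = i ∧ c = i then [z1] else if a = j ∧ c = j then [z2] else w0
    have hdem : ∀ a c, dem W b a c ≠ 0 → (a = i ∧ c = i) ∨ (a = j ∧ c = j) ∨ (a = i ∧ c = j) := by
      intro a c hac
      unfold dem at hac
      have hba : ∀ v, b v ≠ 0 → v = i ∨ v = j := by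
        intro v hv
        by_contra hcon
        rw [not_or] at hcon
        exact hv (hbz v hcon.1 hcon.2)
      split_ifs at hac with h3 h4
      · have ha : b a ≠ 0 := by
          intro h5; rw [h5] at hac; simp at hac
        have hc : b c ≠ 0 := by
          intro h5; rw [h5] at hac; simp at hac
        rcases hba a ha with rfl | rfl <;> rcases hba c hc with rfl | rfl
        · exact absurd h3 (lt_irrefl _)
        · exact Or.inr (Or.inr ⟨rfl, rfl⟩)
        · exact absurd (h3.trans hij) (lt_irrefl _)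
        · exact absurd h3 (lt_irrefl _)
      · subst h4
        have ha : b a ≠ 0 := by
          intro h5; rw [h5] at hac; simp at hac
        rcases hba a ha with rfl | rfl
        · exact Or.inl ⟨rfl, rfl⟩
        · exact Or.inr (Or.inl ⟨rfl, rfl⟩)
      · exact absurd rfl hac
    refine ⟨w, ?_, ?_⟩
    · intro a c hac
      rcases hdem a c hac with ⟨rfl, rfl⟩ | ⟨rfl, rfl⟩ | ⟨rfl, rfl⟩
      · simp only [w, and_self, if_true]
        refine ⟨by simp, ?_⟩
        simp only [List.cons_append, List.nil_append]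
        rw [List.isChain_cons_cons, List.isChain_cons_cons]
        exact ⟨hz1, by rw [W.p_symm]; exact hz1, List.isChain_singleton _⟩
      · simp only [w, hne.symm, and_self, if_true, if_false]
        refine ⟨by simp, ?_⟩
        simp only [List.cons_append, List.nil_append]
        rw [List.isChain_cons_cons, List.isChain_cons_cons]
        exact ⟨hz2, by rw [W.p_symm]; exact hz2, List.isChain_singleton _⟩
      · simp only [w, hne, hne.symm, and_true, and_false, if_false]
        exact hw0.2
    · rw [sum_three i j hne (fun a c => dem W b a c * wt l (w a c))]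
      · refine le_trans (le_of_eq ?_) hmain
        simp only [w, dem, hbi, hbj, hne, hne.symm, hij, lt_irrefl, and_self, and_true, and_false,
          if_true, if_false, ← hddef]
        simp only [wt, List.map_cons, List.map_nil, List.sum_cons, List.sum_nil, add_zero]
      · intro a c hac
        exact hdem a c (fun h3 => hac (by simp [h3]))

/-- The two type test on an edge. -/
theorem feas_edge {m : ℕ} (W : World m) (i j : Fin m) (hp : 0 < W.p i j)
    (b1 b2 : ℝ) (h1 : 0 ≤ b1) (h2 : 0 ≤ b2) (hs : b1 + b2 = 1)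
    (F1 : b1 ^ 2 / 2 + (1 - W.p i j) * b1 * b2 ≤ nu W i)
    (F2 : b2 ^ 2 / 2 + (1 - W.p i j) * b1 * b2 ≤ nu W j)
    (F12 : b1 ^ 2 / 2 + b2 ^ 2 / 2 + (1 - W.p i j) * b1 * b2 ≤ ∑ v ∈ nbr W i ∪ nbr W j, W.x v)
    (hcut : ∀ S, IsSep W i j S → (1 - W.p i j) * b1 * b2 ≤ ∑ v ∈ S, W.x v) :
    ∃ b, Feas W b := by
  rcases lt_trichotomy i j with h | h | h
  · exact feas_edge_lt W i j h hp b1 b2 h1 h2 hs F1 F2 F12 hcut
  · subst h
    rw [W.p_self] at hp
    exact absurd hp (lt_irrefl _)
  · rw [W.p_symm i j] at hp F1 F2 F12 hcut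
    refine feas_edge_lt W j i h hp b2 b1 h2 h1 (by linarith) ?_ ?_ ?_ ?_
    · linarith
    · linarith
    · rw [Finset.union_comm]; linarith
    · intro S hS
      have := hcut S (isSep_symm W hS)
      linarith

end Pool.Agent.H54.TW
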