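import Mathlib

/-!
A weighted form of Mader's theorem: a graph in which every vertex has degree (measure of the
neighbourhood) larger than `c` has an edge whose two neighbourhoods cannot be separated by a set of
measure at most `c`. Proof by maximum adjacency orderings.
-/

namespace Pool.Agent.H54.TW

open Finset

variable {m : ℕ} (x : Fin m → ℝ) (A : Fin m → Fin m → Prop) (Z : Finset (Fin m))

open Classical in
/-- Measure of the neighbours of `v` in the list `P`. -/
noncomputable def adjm (P : List (Fin m)) (v : Fin m) : ℝ :=
  ∑ u ∈ Z.filter (fun u => u ∈ P ∧ A v u), x u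

open Classical in
/-- Measure of `S` in the list `P`. -/
noncomputable def setm (S : Finset (Fin m)) (P : List (Fin m)) : ℝ :=
  ∑ u ∈ Z.filter (fun u => u ∈ P ∧ u ∈ S), x u

/-- Maximum adjacency orderings, the last vertex comes first in the list. -/
inductive Greedy : List (Fin m) → Prop
  | nil : Greedy []
  | cons (z : Fin m) (P : List (Fin m)) (hP : Greedy P) (hz : z ∈ Z) (hzP : z ∉ P)
      (h : ∀ u ∈ Z, u ∉ P → adjm x A Z P u ≤ adjm x A Z P z) : Greedy (z :: P)

variable {x A Z}

lemma adjm_nil (v : Fin m) : adjm x A Z [] v = 0 := by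
  simp [adjm]

lemma setm_nil (S : Finset (Fin m)) : setm x Z S [] = 0 := by
  simp [setm]

open Classical in
lemma adjm_cons {z : Fin m} {P : List (Fin m)} (hz : z ∈ Z) (hzP : z ∉ P) (v : Fin m) :
    adjm x A Z (z :: P) v = adjm x A Z P v + (if A v z then x z else 0) := by
  unfold adjm
  rw [Finset.sum_filter, Finset.sum_filter, ← Finset.add_sum_erase _ _ hz,
    ← Finset.add_sum_erase (a := z) Z _ hz]
  have h1 : ∀ u ∈ Z.erase z, (if u ∈ z :: P ∧ A v u then x u else 0)
      = (if u ∈ P ∧ A v u then x u else 0) := by
    intro u hu
    have : u ≠ z := Finset.ne_of_mem_erase hu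
    simp [this]
  rw [Finset.sum_congr rfl h1]
  simp only [List.mem_cons, true_or, true_and, hzP, false_and, if_false]
  ring

open Classical in
lemma setm_cons {S : Finset (Fin m)} {z : Fin m} {P : List (Fin m)} (hz : z ∈ Z) (hzP : z ∉ P) :
    setm x Z S (z :: P) = setm x Z S P + (if z ∈ S then x z else 0) := by
  unfold setm
  rw [Finset.sum_filter, Finset.sum_filter, ← Finset.add_sum_erase _ _ hz,
    ← Finset.add_sum_erase (a := z) Z _ hz]
  have h1 : ∀ u ∈ Z.erase z, (if u ∈ z :: P ∧ u ∈ S then x u else 0)
      = (if u ∈ P ∧ u ∈ S then x u else 0) := by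
    intro u hu
    have : u ≠ z := Finset.ne_of_mem_erase hu
    simp [this]
  rw [Finset.sum_congr rfl h1]
  simp only [List.mem_cons, true_or, true_and, hzP, false_and, if_false]
  ring

lemma Greedy.nodup {P : List (Fin m)} (h : Greedy x A Z P) : P.Nodup := by
  induction h with
  | nil => exact List.nodup_nil
  | cons z P _ _ hzP _ ih => exact List.nodup_cons.2 ⟨hzP, ih⟩

lemma Greedy.mem {P : List (Fin m)} (h : Greedy x A Z P) : ∀ v ∈ P, v ∈ Z := by
  induction h with
  | nil => intro v hv; simp at hv
  | cons z P _ hz _ _ ih =>
    intro v hv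
    rcases List.mem_cons.1 hv with rfl | hv
    · exact hz
    · exact ih v hv

lemma Greedy.tail {z : Fin m} {P : List (Fin m)} (h : Greedy x A Z (z :: P)) :
    Greedy x A Z P := by
  cases h with
  | cons _ _ hP _ _ _ => exact hP

lemma Greedy.suffix {P Q : List (Fin m)} (h : Greedy x A Z P) (hQ : Q <:+ P) :
    Greedy x A Z Q := by
  induction h with
  | nil =>
    rw [List.suffix_nil] at hQ
    subst hQ
    exact Greedy.nil
  | cons z P hP hz hzP hm ih =>
    rcases List.suffix_cons_iff.1 hQ with rfl | h1
    · exact Greedy.cons z P hP hz hzP hm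
    · exact ih h1

lemma exists_greedy : ∀ k ≤ Z.card, ∃ P : List (Fin m), Greedy x A Z P ∧ P.length = k := by
  classical
  intro k
  induction k with
  | zero => intro _; exact ⟨[], Greedy.nil, rfl⟩
  | succ k ih =>
    intro hk
    obtain ⟨P, hP, hPk⟩ := ih (by omega)
    have hne : (Z.filter (fun u => u ∉ P)).Nonempty := by
      by_contra hcon
      rw [Finset.not_nonempty_iff_eq_empty, Finset.filter_eq_empty_iff] at hcon
      have hsub : Z ⊆ P.toFinset := by
        intro u hu
        have := hcon hu
        rw [not_not] at this
        simpa using this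
      have h1 := Finset.card_le_card hsub
      have h2 := P.toFinset_card_le
      omega
    obtain ⟨z, hz, hz'⟩ := Finset.exists_max_image _ (fun u => adjm x A Z P u) hne
    rw [Finset.mem_filter] at hz
    refine ⟨z :: P, Greedy.cons z P hP hz.1 hz.2 ?_, by simp [hPk]⟩
    intro u hu huP
    exact hz' u (Finset.mem_filter.2 ⟨hu, huP⟩)

/-- The key induction. -/
lemma greedy_key (hx : ∀ i, 0 < x i) (S : Finset (Fin m)) (a c : Fin m → Prop)
    (P : List (Fin m)) :
    Greedy x A Z P → (∀ z ∈ P, z ∈ S ∨ a z ∨ c z) →
    (∀ z ∈ P, c z → ∀ v, a v → ¬ A v z) → (∀ z ∈ P, a z → ∀ v, c v → ¬ A v z) →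
    (∀ v, a v → v ∈ Z) → (∀ v, c v → v ∈ Z) →
    (∀ v, a v → v ∉ P → adjm x A Z P v ≤ setm x Z S P) ∨
    (∀ v, c v → v ∉ P → adjm x A Z P v ≤ setm x Z S P) := by
  classical
  induction P with
  | nil =>
    intro _ _ _ _ _ _
    left
    intro v _ _
    rw [adjm_nil, setm_nil]
  | cons z P ih =>
    intro hG h1 h2 h3 h4 h5
    have hG' := hG
    cases hG' with
    | cons _ _ hP hz hzP hmax =>
      have hrec := ih hP (fun v hv => h1 v (List.mem_cons_of_mem _ hv))
        (fun v hv => h2 v (List.mem_cons_of_mem _ hv))
        (fun v hv => h3 v (List.mem_cons_of_mem _ hv)) h4 h5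
      have hs : setm x Z S P ≤ setm x Z S (z :: P) := by
        rw [setm_cons hz hzP]
        split_ifs
        · have := hx z; linarith
        · linarith
      rcases h1 z (by simp) with hzS | hza | hzc
      · -- z in S
        have hup : ∀ v, adjm x A Z P v ≤ setm x Z S P →
            adjm x A Z (z :: P) v ≤ setm x Z S (z :: P) := by
          intro v hv
          rw [adjm_cons hz hzP, setm_cons hz hzP, if_pos hzS]
          have := hx z
          split_ifs <;> linarith
        rcases hrec with hr | hr
        · left
          intro v hv hvP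
          exact hup v (hr v hv (fun h => hvP (List.mem_cons_of_mem _ h)))
        · right
          intro v hv hvP
          exact hup v (hr v hv (fun h => hvP (List.mem_cons_of_mem _ h)))
      · -- z in a: the conclusion is for c
        right
        have hall : ∀ v, c v → v ∉ P → adjm x A Z P v ≤ setm x Z S P := by
          rcases hrec with hr | hr
          · intro v hv hvP
            exact (hmax v (h5 v hv) hvP).trans (hr z hza hzP)
          · exact hr
        intro v hv hvP
        have hnA := h3 z (by simp) hza v hv
        rw [adjm_cons hz hzP, if_neg hnA, add_zero]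
        exact (hall v hv (fun h => hvP (List.mem_cons_of_mem _ h))).trans hs
      · left
        have hall : ∀ v, a v → v ∉ P → adjm x A Z P v ≤ setm x Z S P := by
          rcases hrec with hr | hr
          · exact hr
          · intro v hv hvP
            exact (hmax v (h4 v hv) hvP).trans (hr z hzc hzP)
        intro v hv hvP
        have hnA := h2 z (by simp) hzc v hv
        rw [adjm_cons hz hzP, if_neg hnA, add_zero]
        exact (hall v hv (fun h => hvP (List.mem_cons_of_mem _ h))).trans hs

open Classical in
/-- Weighted Mader theorem. -/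
theorem mader_edge (hx : ∀ i, 0 < x i) (hAs : ∀ a b, A a b → A b a) (hAi : ∀ a, ¬ A a a)
    (hZ : Z.Nonempty) (c : ℝ) (hc : 0 ≤ c)
    (hdeg : ∀ y ∈ Z, c < ∑ v ∈ Z.filter (fun v => A y v), x v) :
    ∃ a ∈ Z, ∃ b ∈ Z, A a b ∧ ∀ S : Finset (Fin m),
      (∀ w : List (Fin m), w ≠ [] → (∀ v ∈ w, v ∈ Z) → List.IsChain A (a :: (w ++ [b])) →
        ∃ v ∈ w, v ∈ S) → c < ∑ v ∈ S, x v := by
  obtain ⟨L, hL, hLc⟩ := exists_greedy (x := x) (A := A) (Z := Z) Z.card le_rfl
  have hLZ : L.toFinset = Z := by
    apply Finset.eq_of_subset_of_card_le
    · intro v hv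
      exact hL.mem v (by simpa using hv)
    · rw [List.toFinset_card_of_nodup hL.nodup, hLc]
  cases L with
  | nil =>
    simp at hLZ
    subst hLZ
    simp at hZ
  | cons y L =>
    have hyZ : y ∈ Z := hL.mem y (by simp)
    have hyL : y ∉ L := (List.nodup_cons.1 hL.nodup).1
    have hmemZ : ∀ v, v ∈ Z ↔ v = y ∨ v ∈ L := by
      intro v; rw [← hLZ]; simp
    -- y has a neighbour
    have hnb : ∃ v ∈ L, A y v := by
      by_contra hcon
      push Not at hcon
      have h1 := hdeg y hyZ
      have h2 : Z.filter (fun v => A y v) = ∅ := by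
        rw [Finset.filter_eq_empty_iff]
        intro v hv
        rcases (hmemZ v).1 hv with rfl | hv
        · exact hAi _
        · exact hcon v hv
      rw [h2] at h1
      simp at h1
      linarith
    -- last neighbour
    have hsplit : ∃ s t P, L = s ++ t :: P ∧ A y t ∧ ∀ v ∈ s, ¬ A y v := by
      clear hL hLc hLZ hyL hmemZ
      obtain ⟨v, hv, hyv⟩ := hnb
      induction L with
      | nil => simp at hv
      | cons z L ih =>
        by_cases hz : A y z
        · exact ⟨[], z, L, rfl, hz, by simp⟩
        · rcases List.mem_cons.1 hv with rfl | hv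
          · exact absurd hyv hz
          · obtain ⟨s, t, P, h1, h2, h3⟩ := ih hv
            refine ⟨z :: s, t, P, by rw [h1]; rfl, h2, ?_⟩
            intro u hu
            rcases List.mem_cons.1 hu with rfl | hu
            · exact hz
            · exact h3 u hu
    obtain ⟨s, t, P, hLs, hyt, hs⟩ := hsplit
    have hGt : Greedy x A Z (t :: P) :=
      hL.suffix ((List.suffix_cons_iff).2 (Or.inr ⟨s, hLs.symm⟩))
    have htZ : t ∈ Z := hGt.mem t (by simp)
    have htP : t ∉ P := (List.nodup_cons.1 hGt.nodup).1
    have hPZ : ∀ v ∈ P, v ∈ Z := fun v hv => hGt.mem v (by simp [hv])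
    have hyP : y ∉ P := fun h => hyL (by rw [hLs]; simp [h])
    have hyt' : y ≠ t := fun h => hyL (by rw [hLs]; simp [h])
    have hdegy : ∑ v ∈ Z.filter (fun v => A y v), x v = adjm x A Z P y + x t := by
      have h1 : ∑ v ∈ Z.filter (fun v => A y v), x v = adjm x A Z (t :: P) y := by
        unfold adjm
        refine Finset.sum_congr ?_ fun _ _ => rfl
        ext v
        simp only [Finset.mem_filter]
        constructor
        · rintro ⟨h2, h3⟩
          refine ⟨h2, ?_, h3⟩
          rcases (hmemZ v).1 h2 with rfl | h4
          · exact absurd h3 (hAi _)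
          · rw [hLs, List.mem_append] at h4
            rcases h4 with h4 | h4
            · exact absurd h3 (hs v h4)
            · exact h4
        · rintro ⟨h2, _, h3⟩
          exact ⟨h2, h3⟩
      rw [h1, adjm_cons htZ htP, if_pos hyt]
    refine ⟨t, htZ, y, hyZ, hAs _ _ hyt, ?_⟩
    intro S hS
    by_contra hcon
    rw [not_lt] at hcon
    have hSx : ∀ T : Finset (Fin m), T ⊆ S → ∑ v ∈ T, x v ≤ c := by
      intro T hT
      exact (Finset.sum_le_sum_of_subset_of_nonneg hT (fun v _ _ => (hx v).le)).trans hcon
    have hyS : y ∈ S := by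
      by_contra hyS
      have h1 : Z.filter (fun v => A y v) ⊆ S := by
        intro v hv
        rw [Finset.mem_filter] at hv
        obtain ⟨u, hu, huS⟩ := hS [y, v] (by simp) (by
          intro u hu
          simp at hu
          rcases hu with rfl | rfl
          · exact hyZ
          · exact hv.1) (by
            simp only [List.cons_append, List.nil_append]
            rw [List.isChain_cons_cons, List.isChain_cons_cons, List.isChain_cons_cons]
            exact ⟨hAs _ _ hyt, hv.2, hAs _ _ hv.2, List.isChain_singleton _⟩)
        simp at hu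
        rcases hu with rfl | rfl
        · exact absurd huS hyS
        · exact huS
      have := hSx _ h1
      have := hdeg y hyZ
      linarith
    have htS : t ∈ S := by
      by_contra htS
      have h1 : Z.filter (fun v => A t v) ⊆ S := by
        intro v hv
        rw [Finset.mem_filter] at hv
        obtain ⟨u, hu, huS⟩ := hS [v, t] (by simp) (by
          intro u hu
          simp at hu
          rcases hu with rfl | rfl
          · exact hv.1
          · exact htZ) (by
            simp only [List.cons_append, List.nil_append]
            rw [List.isChain_cons_cons, List.isChain_cons_cons, List.isChain_cons_cons]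
            exact ⟨hv.2, hAs _ _ hv.2, hAs _ _ hyt, List.isChain_singleton _⟩)
        simp at hu
        rcases hu with rfl | rfl
        · exact huS
        · exact absurd huS htS
      have := hSx _ h1
      have := hdeg t htZ
      linarith
    -- reachability from y inside P \ S
    let reach : Fin m → Prop := fun v => ∃ r : List (Fin m), (∀ u ∈ v :: r, u ∈ P ∧ u ∉ S) ∧
      List.IsChain A ((v :: r) ++ [y])
    let cc : Fin m → Prop := fun v => reach v ∨ v = y
    let aa : Fin m → Prop := fun v => (v ∈ P ∧ v ∉ S ∧ ¬ reach v) ∨ v = t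
    have hkey := greedy_key (Z := Z) hx S aa cc P hGt.tail ?_ ?_ ?_ ?_ ?_
    · -- conclusion
      have hf : adjm x A Z P y ≤ setm x Z S P := by
        rcases hkey with h1 | h1
        · have h2 := h1 t (Or.inr rfl) htP
          cases hGt with
          | cons _ _ _ _ _ hmax => exact (hmax y hyZ hyP).trans h2
        · exact h1 y (Or.inr rfl) hyP
      have h2 : setm x Z S P + x t ≤ ∑ v ∈ S, x v := by
        unfold setm
        rw [add_comm, ← Finset.sum_insert]
        · refine Finset.sum_le_sum_of_subset_of_nonneg ?_ (fun v _ _ => (hx v).le)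
          intro v hv
          rw [Finset.mem_insert, Finset.mem_filter] at hv
          rcases hv with rfl | hv
          · exact htS
          · exact hv.2.2
        · rw [Finset.mem_filter]
          intro h3
          exact htP h3.2.1
      have := hdeg y hyZ
      linarith
    · intro z hz
      by_cases hzS : z ∈ S
      · exact Or.inl hzS
      · by_cases hr : reach z
        · exact Or.inr (Or.inr (Or.inl hr))
        · exact Or.inr (Or.inl (Or.inl ⟨hz, hzS, hr⟩))
    · -- z in c, v in a not adjacent
      intro z hz hcz v hav hAvz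
      have hzy : z ≠ y := fun h => hyP (h ▸ hz)
      rcases hcz with ⟨r, hr1, hr2⟩ | hcz
      · rcases hav with ⟨hv1, hv2, hv3⟩ | rfl
        · apply hv3
          refine ⟨z :: r, ?_, ?_⟩
          · intro u hu
            rcases List.mem_cons.1 hu with rfl | hu
            · exact ⟨hv1, hv2⟩
            · exact hr1 u hu
          · rw [List.cons_append, List.cons_append, List.isChain_cons_cons]
            exact ⟨hAvz, by simpa using hr2⟩
        · obtain ⟨u, hu, huS⟩ := hS (z :: r) (by simp) (fun u hu => hPZ u (hr1 u hu).1) (by
            rw [List.cons_append, List.isChain_cons_cons]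
            exact ⟨hAvz, by simpa using hr2⟩)
          exact (hr1 u hu).2 huS
      · exact hzy hcz
    · intro z hz haz v hcv hAvz
      have hzt : z ≠ t := fun h => htP (h ▸ hz)
      rcases haz with ⟨hz1, hz2, hz3⟩ | haz
      · rcases hcv with ⟨r, hr1, hr2⟩ | rfl
        · apply hz3
          refine ⟨v :: r, ?_, ?_⟩
          · intro u hu
            rcases List.mem_cons.1 hu with rfl | hu
            · exact ⟨hz1, hz2⟩
            · exact hr1 u hu
          · rw [List.cons_append, List.cons_append, List.isChain_cons_cons]
            exact ⟨hAs _ _ hAvz, by simpa using hr2⟩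
        · apply hz3
          refine ⟨[], ?_, ?_⟩
          · intro u hu
            simp at hu
            subst hu
            exact ⟨hz1, hz2⟩
          · simp only [List.cons_append, List.nil_append]
            rw [List.isChain_cons_cons]
            exact ⟨hAs _ _ hAvz, List.isChain_singleton _⟩
      · exact hzt haz
    · rintro v (⟨hv, _, _⟩ | rfl)
      · exact hPZ v hv
      · exact htZ
    · rintro v (⟨r, hr, _⟩ | rfl)
      · exact hPZ v (hr v (by simp)).1
      · exact hyZ

end Pool.Agent.H54.TW
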