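import Mathlib
import Pool.Agent.H54.TW.Cut
import Pool.Agent.H54.TW.Mader

/-!
Edges of a template world whose neighbourhoods are separated by small cuts have small measure.
-/

namespace Pool.Agent.H54.TW

open Finset Pool.Agent.H25.TD MeasureTheory

/-- The edge `ij` has a cut of measure at most `c`. -/
def SmallCut {m : ℕ} (W : World m) (c : ℝ) (i j : Fin m) : Prop :=
  0 < W.p i j ∧ ∃ S, IsSep W i j S ∧ ∑ v ∈ S, W.x v ≤ c

lemma SmallCut.symm {m : ℕ} {W : World m} {c : ℝ} {i j : Fin m} (h : SmallCut W c i j) :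
    SmallCut W c j i := by
  obtain ⟨hp, S, hS, hc⟩ := h
  exact ⟨by rw [W.p_symm]; exact hp, S, isSep_symm W hS, hc⟩

lemma SmallCut.irrefl {m : ℕ} {W : World m} {c : ℝ} {i : Fin m} : ¬ SmallCut W c i i := by
  rintro ⟨hp, _⟩
  rw [W.p_self] at hp
  exact lt_irrefl _ hp

open Classical in
lemma exists_small_degree {m : ℕ} (W : World m) (c : ℝ) (hc : 0 ≤ c) (Z : Finset (Fin m))
    (hZ : Z.Nonempty) : ∃ y ∈ Z, ∑ v ∈ Z.filter (fun v => SmallCut W c y v), W.x v ≤ c := by
  by_contra hcon
  push Not at hcon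
  obtain ⟨a, ha, b, hb, hab, hS⟩ := mader_edge (x := W.x) (A := SmallCut W c) (Z := Z) W.x_pos
    (fun _ _ h => h.symm) (fun _ => SmallCut.irrefl) hZ c hc hcon
  obtain ⟨_, S, hS1, hS2⟩ := hab
  have := hS S (by
    intro w hw _ hch
    exact hS1 w ⟨hw, hch.imp fun _ _ h => h.1⟩)
  linarith

open Classical in
lemma small_cut_aux {m : ℕ} (W : World m) (c : ℝ) (hc : 0 ≤ c) :
    ∀ n : ℕ, ∀ Z : Finset (Fin m), Z.card = n →
      ∑ i ∈ Z, ∑ j ∈ Z, (if SmallCut W c i j then W.x i * W.x j else 0) ≤ 2 * c * ∑ i ∈ Z, W.x i := by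
  intro n
  induction n with
  | zero =>
    intro Z hZ
    rw [Finset.card_eq_zero] at hZ
    subst hZ
    simp
  | succ n ih =>
    intro Z hZ
    have hne : Z.Nonempty := by rw [← Finset.card_pos]; omega
    obtain ⟨y, hy, hdeg⟩ := exists_small_degree W c hc Z hne
    have h1 := ih (Z.erase y) (by rw [Finset.card_erase_of_mem hy]; omega)
    have hzero : (if SmallCut W c y y then W.x y * W.x y else 0) = 0 := if_neg SmallCut.irrefl
    have hrow : ∑ j ∈ Z.erase y, (if SmallCut W c y j then W.x y * W.x j else 0) ≤ W.x y * c := by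
      have h2 : ∑ j ∈ Z.erase y, (if SmallCut W c y j then W.x y * W.x j else 0)
          = W.x y * ∑ v ∈ Z.filter (fun v => SmallCut W c y v), W.x v := by
        rw [Finset.sum_filter, Finset.mul_sum, ← Finset.add_sum_erase Z _ hy,
          if_neg SmallCut.irrefl, mul_zero, zero_add]
        refine Finset.sum_congr rfl fun j _ => ?_
        split_ifs <;> ring
      rw [h2]
      exact mul_le_mul_of_nonneg_left hdeg (W.x_pos y).le
    have hcol : ∑ i ∈ Z.erase y, (if SmallCut W c i y then W.x i * W.x y else 0)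
        = ∑ j ∈ Z.erase y, (if SmallCut W c y j then W.x y * W.x j else 0) := by
      refine Finset.sum_congr rfl fun i _ => ?_
      by_cases h : SmallCut W c i y
      · rw [if_pos h, if_pos h.symm]; ring
      · rw [if_neg h, if_neg (fun h' => h h'.symm)]
    rw [← Finset.add_sum_erase Z _ hy, ← Finset.add_sum_erase Z W.x hy]
    have hinner : ∀ i ∈ Z.erase y, ∑ j ∈ Z, (if SmallCut W c i j then W.x i * W.x j else 0)
        = (if SmallCut W c i y then W.x i * W.x y else 0)
          + ∑ j ∈ Z.erase y, (if SmallCut W c i j then W.x i * W.x j else 0) := by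
      intro i _
      rw [← Finset.add_sum_erase Z _ hy]
    rw [Finset.sum_congr rfl hinner, Finset.sum_add_distrib, hcol, ← Finset.add_sum_erase Z _ hy,
      hzero]
    linarith

open Classical in
/-- The edges with cuts of measure at most `c` have measure at most `c` times the world. -/
theorem small_cut_measure {m : ℕ} (W : World m) (c : ℝ) (hc : 0 ≤ c) :
    ∑ i, ∑ j, (if SmallCut W c i j then W.x i * W.x j else 0) ≤ 2 * c * ∑ i, W.x i :=
  small_cut_aux W c hc _ Finset.univ rfl

open Classical in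
lemma sep_nonempty {m : ℕ} (W : World m) (i j : Fin m) :
    ((Finset.univ : Finset (Finset (Fin m))).filter (fun S => IsSep W i j S)).Nonempty := by
  refine ⟨Finset.univ, ?_⟩
  rw [Finset.mem_filter]
  refine ⟨Finset.mem_univ _, ?_⟩
  intro w hw
  obtain ⟨v, hv, _⟩ := route_first hw
  exact ⟨v, hv, Finset.mem_univ _⟩

open Classical in
/-- The minimal measure of a separator. -/
noncomputable def kap {m : ℕ} (W : World m) (i j : Fin m) : ℝ :=
  ((Finset.univ : Finset (Finset (Fin m))).filter (fun S => IsSep W i j S)).inf'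
    (sep_nonempty W i j) (fun S => ∑ v ∈ S, W.x v)

lemma kap_le {m : ℕ} (W : World m) (i j : Fin m) {S : Finset (Fin m)} (hS : IsSep W i j S) :
    kap W i j ≤ ∑ v ∈ S, W.x v := by
  classical
  exact Finset.inf'_le _ (by simpa using hS)

lemma exists_kap {m : ℕ} (W : World m) (i j : Fin m) :
    ∃ S, IsSep W i j S ∧ kap W i j = ∑ v ∈ S, W.x v := by
  classical
  obtain ⟨S, hS, h⟩ := Finset.exists_mem_eq_inf' (sep_nonempty W i j) (fun S => ∑ v ∈ S, W.x v)
  exact ⟨S, by simpa using hS, h⟩

lemma kap_nonneg {m : ℕ} (W : World m) (i j : Fin m) : 0 ≤ kap W i j := by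
  obtain ⟨S, _, h⟩ := exists_kap W i j
  rw [h]
  exact Finset.sum_nonneg fun v _ => (W.x_pos v).le

lemma smallCut_iff {m : ℕ} (W : World m) (c : ℝ) (i j : Fin m) :
    SmallCut W c i j ↔ 0 < W.p i j ∧ kap W i j ≤ c := by
  constructor
  · rintro ⟨hp, S, hS, hc⟩
    exact ⟨hp, (kap_le W i j hS).trans hc⟩
  · rintro ⟨hp, hk⟩
    obtain ⟨S, hS, h⟩ := exists_kap W i j
    exact ⟨hp, S, hS, by rw [← h]; exact hk⟩

/-- Common neighbours belong to every separator. -/
lemma inter_le_kap {m : ℕ} (W : World m) (i j : Fin m) :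
    ∑ v ∈ nbr W i ∩ nbr W j, W.x v ≤ kap W i j := by
  classical
  obtain ⟨S, hS, h⟩ := exists_kap W i j
  rw [h]
  refine Finset.sum_le_sum_of_subset_of_nonneg ?_ (fun v _ _ => (W.x_pos v).le)
  intro v hv
  rw [Finset.mem_inter, mem_nbr, mem_nbr] at hv
  obtain ⟨u, hu, huS⟩ := hS [v] ⟨by simp, by
    simp only [List.cons_append, List.nil_append]
    rw [List.isChain_cons_cons, List.isChain_cons_cons]
    exact ⟨hv.1, by rw [W.p_symm]; exact hv.2, List.isChain_singleton _⟩⟩
  simp at hu
  subst hu
  exact huS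

open Classical in
/-- Layer cake. -/
theorem layer {m : ℕ} (W : World m) (T : ℝ) (hT : 0 ≤ T) :
    ∑ i, ∑ j, (if 0 < W.p i j then W.x i * W.x j * max 0 (T - kap W i j) else 0)
      ≤ T ^ 2 * ∑ i, W.x i := by
  set X := ∑ i, W.x i with hX
  have h1 : ∀ i j, (if 0 < W.p i j then W.x i * W.x j * max 0 (T - kap W i j) else 0)
      = ∫ t in Set.Ioc 0 T, (Set.Ici (kap W i j)).indicator
        (fun _ => if 0 < W.p i j then W.x i * W.x j else 0) t := by
    intro i j
    have hk := kap_nonneg W i j
    rw [setIntegral_indicator measurableSet_Ici, setIntegral_const, smul_eq_mul, Measure.real]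
    have hvol : volume (Set.Ioc 0 T ∩ Set.Ici (kap W i j)) = ENNReal.ofReal (T - kap W i j) := by
      by_cases hk0 : kap W i j = 0
      · rw [hk0]
        have : Set.Ioc 0 T ∩ Set.Ici (0 : ℝ) = Set.Ioc 0 T := by
          ext t; simp only [Set.mem_inter_iff, Set.mem_Ioc, Set.mem_Ici]
          constructor
          · exact fun h => h.1
          · exact fun h => ⟨h, h.1.le⟩
        rw [this, Real.volume_Ioc]
      · have hk' : 0 < kap W i j := lt_of_le_of_ne hk (Ne.symm hk0)
        have : Set.Ioc 0 T ∩ Set.Ici (kap W i j) = Set.Icc (kap W i j) T := by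
          ext t; simp only [Set.mem_inter_iff, Set.mem_Ioc, Set.mem_Ici, Set.mem_Icc]
          constructor
          · exact fun h => ⟨h.2, h.1.2⟩
          · exact fun h => ⟨⟨by linarith [h.1], h.2⟩, h.1⟩
        rw [this, Real.volume_Icc]
    rw [hvol]
    by_cases hh : 0 ≤ T - kap W i j
    · rw [ENNReal.toReal_ofReal hh, max_eq_right hh]
      split_ifs <;> ring
    · rw [not_le] at hh
      rw [ENNReal.ofReal_of_nonpos hh.le, max_eq_left hh.le]
      split_ifs <;> simp
  have hint : ∀ i j, IntegrableOn (fun t => (Set.Ici (kap W i j)).indicator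
      (fun _ => if 0 < W.p i j then W.x i * W.x j else 0) t) (Set.Ioc 0 T) := by
    intro i j
    exact (integrableOn_const (by simp)).indicator measurableSet_Ici
  have h2 : ∑ i, ∑ j, (if 0 < W.p i j then W.x i * W.x j * max 0 (T - kap W i j) else 0)
      = ∫ t in Set.Ioc 0 T, ∑ i, ∑ j, (Set.Ici (kap W i j)).indicator
        (fun _ => if 0 < W.p i j then W.x i * W.x j else 0) t := by
    rw [integral_finsetSum _ (fun i _ => integrable_finsetSum _ (fun j _ => hint i j))]
    refine Finset.sum_congr rfl fun i _ => ?_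
    rw [integral_finsetSum _ (fun j _ => hint i j)]
    exact Finset.sum_congr rfl fun j _ => h1 i j
  rw [h2]
  have h3 : T ^ 2 * X = ∫ t in Set.Ioc 0 T, 2 * t * X := by
    rw [← intervalIntegral.integral_of_le hT]
    simp only [mul_assoc, intervalIntegral.integral_const_mul, intervalIntegral.integral_mul_const,
      integral_id]
    ring
  rw [h3]
  refine setIntegral_mono_on
    (integrable_finsetSum _ (fun i _ => integrable_finsetSum _ (fun j _ => hint i j)))
    ?_ measurableSet_Ioc ?_
  · exact (Continuous.integrableOn_Icc (by fun_prop)).mono_set Set.Ioc_subset_Icc_self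
  · intro t ht
    refine le_trans (le_of_eq ?_) (small_cut_measure W t ht.1.le)
    refine Finset.sum_congr rfl fun i _ => Finset.sum_congr rfl fun j _ => ?_
    simp only [Set.indicator, Set.mem_Ici, smallCut_iff]
    by_cases hp : 0 < W.p i j <;> by_cases hk : kap W i j ≤ t <;> simp [hp, hk]

end Pool.Agent.H54.TW
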