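import Mathlib

/-!
The real inequality behind the two type tests: if no two type distribution on an edge of density `p`
is feasible, then `p` is at most `(1/8)(1/u1 + 1/u2)` plus a term that vanishes for cuts of measure
at least `3/50`.
-/

namespace Pool.Agent.H54.TW

lemma poly_h (a : ℝ) (h1 : a ≤ 1) (h0 : 0 ≤ a) :
    0 ≤ a ^ 3 - a ^ 2 - 19 / 50 * a + 11 / 25 := by
  nlinarith [mul_nonneg (sq_nonneg (a - 41 / 50)) (by linarith : (0 : ℝ) ≤ a + 16 / 25)]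

lemma poly_f (a : ℝ) (h0 : 1 / 2 ≤ a) (h1 : a ≤ 1) :
    1 / 1000 ≤ 2 * a ^ 4 - 2 * a ^ 3 - 16 / 25 * a ^ 2 + 19 / 25 * a + 9 / 625 := by
  by_cases h : a ≤ 7 / 10
  · have e1 : 0 ≤ (7 / 10 - a) := by linarith
    have e2 : 0 ≤ (a - 1 / 2) := by linarith
    nlinarith [mul_nonneg e1 e2, mul_nonneg (mul_nonneg e1 e2) e1, mul_nonneg (mul_nonneg e1 e2) e2,
      sq_nonneg (a ^ 2 - a / 2 - 6 / 25)]
  · rw [not_le] at h
    have e1 : 0 ≤ (a - 7 / 10) := by linarith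
    have e2 : 0 ≤ (1 - a) := by linarith
    nlinarith [mul_nonneg e1 e2, mul_nonneg (mul_nonneg e1 e2) e1, mul_nonneg (mul_nonneg e1 e2) e2,
      sq_nonneg (a ^ 2 - a / 2 - 6 / 25), sq_nonneg (a - 4 / 5)]

/-- The two polynomial inequalities. -/
lemma poly_main (a k : ℝ) (h0 : 1 / 2 ≤ a) (h1 : a ≤ 1) (hk : 0 ≤ k) :
    (1 - 25 / 3 * max 0 (3 / 50 - k)) * (a * (1 - a)) * (2 * a ^ 2 + 4 * k)
      ≤ a * (1 - a) + k * (2 * a ^ 2 + 4 * k) := by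
  have hf := poly_f a h0 h1
  have hh := poly_h a h1 (by linarith)
  by_cases h : k ≤ 3 / 50
  · rw [max_eq_right (by linarith)]
    have hs : 0 ≤ a * (1 - a) * (1 - a ^ 2) := by
      have : 0 ≤ 1 - a ^ 2 := by nlinarith
      have h2 : 0 ≤ a * (1 - a) := mul_nonneg (by linarith) (by linarith)
      exact mul_nonneg h2 this
    have e0 : 0 ≤ (3 / 50 - k) * (a * (1 - a) * (1 - a ^ 2)) := mul_nonneg (by linarith) hs
    have e1 : 0 ≤ k * (3 / 50 - k) * (a * (a ^ 3 - a ^ 2 - 19 / 50 * a + 11 / 25)) :=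
      mul_nonneg (mul_nonneg hk (by linarith)) (mul_nonneg (by linarith) hh)
    have e2 : 0 ≤ k * k * (2 * a ^ 4 - 2 * a ^ 3 - 16 / 25 * a ^ 2 + 19 / 25 * a + 9 / 625) :=
      mul_nonneg (mul_nonneg hk hk) (by linarith)
    have key : a * (1 - a) + k * (2 * a ^ 2 + 4 * k)
        - (1 - 25 / 3 * (3 / 50 - k)) * (a * (1 - a)) * (2 * a ^ 2 + 4 * k)
        = 50 / 3 * ((3 / 50 - k) * (a * (1 - a) * (1 - a ^ 2)))
          + 2500 / 9 * (2 * (k * (3 / 50 - k) * (a * (a ^ 3 - a ^ 2 - 19 / 50 * a + 11 / 25))))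
          + 2500 / 9 * (k * k * (2 * a ^ 4 - 2 * a ^ 3 - 16 / 25 * a ^ 2 + 19 / 25 * a + 9 / 625)) := by
      ring
    linarith
  · rw [not_le] at h
    rw [max_eq_left (by linarith)]
    have e1 : 0 ≤ k - 3 / 50 := by linarith
    have e2 : 0 ≤ (k - 3 / 50) * (6 * a ^ 2 - 4 * a + 12 / 25 + 1 / 50) := by
      refine mul_nonneg e1 ?_
      nlinarith
    nlinarith [sq_nonneg (k - 3 / 50 - 1 / 400)]

/-- The price inequality when the first neighbourhood is the larger one. -/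
lemma price_aux (p u1 u2 U k : ℝ) (hp1 : p ≤ 1) (hu1 : 0 < u1) (hu2 : 0 < u2)
    (h12 : u2 ≤ u1) (hU1 : u1 ≤ U) (hUk : u1 + u2 - k ≤ U) (hk : 0 ≤ k)
    (hno : ∀ b1 b2 : ℝ, 0 ≤ b1 → 0 ≤ b2 → b1 + b2 = 1 →
      b1 ^ 2 / 2 + (1 - p) * b1 * b2 ≤ u1 → b2 ^ 2 / 2 + (1 - p) * b1 * b2 ≤ u2 →
      b1 ^ 2 / 2 + b2 ^ 2 / 2 + (1 - p) * b1 * b2 ≤ U → (1 - p) * b1 * b2 ≤ k → False) :
    p ≤ 1 / 8 * (1 / u1 + 1 / u2) + 25 / 3 * max 0 (3 / 50 - k) := by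
  by_contra hcon
  rw [not_le] at hcon
  have hM : 0 ≤ max 0 (3 / 50 - k) := le_max_left _ _
  have hu1' : u1 < 1 / 2 := by
    by_contra h
    rw [not_lt] at h
    exact hno 1 0 zero_le_one le_rfl (by norm_num) (by linarith) (by linarith) (by linarith)
      (by linarith)
  set σ := u1 + u2 with hσ
  have hσ0 : 0 < σ := by linarith
  set y := u2 / σ with hy
  have hy0 : 0 < y := div_pos hu2 hσ0
  have hyσ : σ * y = u2 := by rw [hy]; field_simp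
  have hy2 : y ≤ 1 / 2 := by
    rw [hy, div_le_iff₀ hσ0]; linarith
  have h1y : σ * (1 - y) = u1 := by rw [mul_sub, hyσ]; simp [hσ]
  -- s = p y (1-y)
  have hs : 1 / (8 * σ) < p * (y * (1 - y)) := by
    have h1 : 1 / 8 * (1 / u1 + 1 / u2) < p := by linarith
    have h2 : 1 / (8 * σ) = 1 / 8 * (1 / u1 + 1 / u2) * (y * (1 - y)) := by
      have e1 : u1 ≠ 0 := hu1.ne'
      have e2 : u2 ≠ 0 := hu2.ne'
      have e3 : 1 - y = u1 / σ := by
        rw [eq_div_iff hσ0.ne']; linarith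
      rw [e3, hy]
      field_simp
      ring
    rw [h2]
    exact mul_lt_mul_of_pos_right h1 (mul_pos hy0 (by linarith))
  have hamgm : 1 / 2 ≤ 1 / (8 * σ) + σ / 2 := by
    rw [div_add_div _ _ (by positivity) (by norm_num), div_le_div_iff₀ (by norm_num) (by positivity)]
    nlinarith [sq_nonneg (2 * σ - 1)]
  have hgen : y - y ^ 2 / 2 ≤ 1 / (8 * σ) + σ * y := by
    have h3 : (y - y ^ 2 / 2) * (8 * σ) ≤ 1 + σ * y * (8 * σ) := by
      nlinarith [mul_nonneg hy0.le (sq_nonneg (σ - (1 - y / 2) / 2)), mul_nonneg hy0.le hy0.le,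
        mul_nonneg hy0.le (by linarith : 0 ≤ 1 / 2 - y)]
    have h4 : 1 / (8 * σ) + σ * y = (1 + σ * y * (8 * σ)) / (8 * σ) := by
      field_simp
    rw [h4, le_div_iff₀ (by positivity)]
    exact h3
  -- conditions at (1-y, y)
  have hF1 : (1 - y) ^ 2 / 2 + (1 - p) * (1 - y) * y ≤ u1 := by nlinarith
  have hF2 : y ^ 2 / 2 + (1 - p) * (1 - y) * y ≤ u2 := by nlinarith
  have hF12 : (1 - y) ^ 2 / 2 + y ^ 2 / 2 + (1 - p) * (1 - y) * y ≤ U := by nlinarith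
  have hcut : k < (1 - p) * (1 - y) * y := by
    by_contra h
    rw [not_lt] at h
    exact hno (1 - y) y (by linarith) hy0.le (by ring) hF1 hF2 hF12 h
  have hku1 : (1 - y) ^ 2 / 2 + k < u1 := by linarith
  have hku2 : y ^ 2 / 2 + k < u2 := by linarith
  set a := Real.sqrt (2 * (u1 - k)) with ha
  have ha2 : a ^ 2 = 2 * (u1 - k) := Real.sq_sqrt (by nlinarith [sq_nonneg (1 - y)])
  have ha0 : 0 ≤ a := Real.sqrt_nonneg _
  have hay : 1 - y ≤ a := by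
    refine Real.le_sqrt_of_sq_le ?_
    linarith
  have ha1 : a < 1 := by
    by_contra h
    rw [not_lt] at h
    have h5 : 1 ≤ a ^ 2 := one_le_pow₀ h
    linarith
  have hah : 1 / 2 ≤ a := by linarith
  have hfin : k < (1 - p) * a * (1 - a) := by
    by_contra h
    rw [not_lt] at h
    have h5 : (1 - a) ^ 2 ≤ y ^ 2 := pow_le_pow_left₀ (by linarith) (by linarith) 2
    exact hno a (1 - a) ha0 (by linarith) (by ring) (by linarith) (by linarith) (by linarith) h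
  have hv : 1 / (2 * a ^ 2 + 4 * k) ≤ 1 / 8 * (1 / u1 + 1 / u2) := by
    have h6 : 2 * a ^ 2 + 4 * k = 4 * u1 := by rw [ha2]; ring
    rw [h6]
    have h7 : 1 / u1 ≤ 1 / u2 := one_div_le_one_div_of_le hu2 h12
    have h8 : 1 / (4 * u1) = 1 / 8 * (1 / u1 + 1 / u1) := by field_simp; ring
    rw [h8]; linarith
  have hvpos : 0 < 2 * a ^ 2 + 4 * k := by
    have h6 : 2 * a ^ 2 + 4 * k = 4 * u1 := by rw [ha2]; ring
    rw [h6]; linarith
  have hspos : 0 < a * (1 - a) := mul_pos (by linarith) (by linarith)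
  have hp' : 1 / (2 * a ^ 2 + 4 * k) + 25 / 3 * max 0 (3 / 50 - k) < p := by linarith
  have hmul : (1 / (2 * a ^ 2 + 4 * k) + 25 / 3 * max 0 (3 / 50 - k))
      * ((a * (1 - a)) * (2 * a ^ 2 + 4 * k)) < p * ((a * (1 - a)) * (2 * a ^ 2 + 4 * k)) :=
    mul_lt_mul_of_pos_right hp' (mul_pos hspos hvpos)
  have hmul2 : (1 / (2 * a ^ 2 + 4 * k) + 25 / 3 * max 0 (3 / 50 - k))
      * ((a * (1 - a)) * (2 * a ^ 2 + 4 * k))
      = a * (1 - a) + 25 / 3 * max 0 (3 / 50 - k) * ((a * (1 - a)) * (2 * a ^ 2 + 4 * k)) := by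
    field_simp
  rw [hmul2] at hmul
  have hpoly := poly_main a k hah ha1.le hk
  have h9 : (p - 1) * (a * (1 - a)) * (2 * a ^ 2 + 4 * k) ≤ - k * (2 * a ^ 2 + 4 * k) := by
    have : (p - 1) * (a * (1 - a)) ≤ - k := by linarith
    exact mul_le_mul_of_nonneg_right this hvpos.le
  have h10 : (1 - 25 / 3 * max 0 (3 / 50 - k)) * (a * (1 - a)) * (2 * a ^ 2 + 4 * k)
      = (a * (1 - a)) * (2 * a ^ 2 + 4 * k)
        - 25 / 3 * max 0 (3 / 50 - k) * ((a * (1 - a)) * (2 * a ^ 2 + 4 * k)) := by ring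
  have h11 : (p - 1) * (a * (1 - a)) * (2 * a ^ 2 + 4 * k)
      = p * ((a * (1 - a)) * (2 * a ^ 2 + 4 * k)) - (a * (1 - a)) * (2 * a ^ 2 + 4 * k) := by ring
  rw [h10] at hpoly
  rw [h11] at h9
  linarith

/-- The price inequality. -/
theorem price (p u1 u2 U k : ℝ) (hp1 : p ≤ 1) (hu1 : 0 < u1) (hu2 : 0 < u2)
    (hU1 : u1 ≤ U) (hU2 : u2 ≤ U) (hUk : u1 + u2 - k ≤ U) (hk : 0 ≤ k)
    (hno : ∀ b1 b2 : ℝ, 0 ≤ b1 → 0 ≤ b2 → b1 + b2 = 1 →
      b1 ^ 2 / 2 + (1 - p) * b1 * b2 ≤ u1 → b2 ^ 2 / 2 + (1 - p) * b1 * b2 ≤ u2 →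
      b1 ^ 2 / 2 + b2 ^ 2 / 2 + (1 - p) * b1 * b2 ≤ U → (1 - p) * b1 * b2 ≤ k → False) :
    p ≤ 1 / 8 * (1 / u1 + 1 / u2) + 25 / 3 * max 0 (3 / 50 - k) := by
  rcases le_total u2 u1 with h | h
  · exact price_aux p u1 u2 U k hp1 hu1 hu2 h hU1 hUk hk hno
  · have h1 := price_aux p u2 u1 U k hp1 hu2 hu1 h hU2 (by linarith) hk (by
      intro b1 b2 c1 c2 c3 c4 c5 c6 c7
      exact hno b2 b1 c2 c1 (by linarith) (by linarith) (by linarith) (by linarith) (by linarith))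
    linarith

end Pool.Agent.H54.TW
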