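import Mathlib
import Pool.Agent.H54.TW.Layer
import Pool.Agent.H54.TW.Price

/-!
The template inequality with constant `7/50`, from the two type tests on the edges only.
-/

namespace Pool.Agent.H54.TW

open Finset Pool.Agent.H25.TD

lemma nu_pos {m : ℕ} (W : World m) {i j : Fin m} (h : 0 < W.p i j) : 0 < nu W i := by
  unfold nu
  exact Finset.sum_pos (fun v _ => W.x_pos v) ⟨j, (mem_nbr W i j).2 h⟩

lemma edge_price {m : ℕ} (W : World m) (hno : ¬ ∃ b, Feas W b) (i j : Fin m)
    (hp : 0 < W.p i j) :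
    W.p i j ≤ 1 / 8 * (1 / nu W i + 1 / nu W j) + 25 / 3 * max 0 (3 / 50 - kap W i j) := by
  classical
  have hpj : 0 < W.p j i := by rw [W.p_symm]; exact hp
  have hunion : nu W i + nu W j = ∑ v ∈ nbr W i ∪ nbr W j, W.x v + ∑ v ∈ nbr W i ∩ nbr W j, W.x v :=
    (Finset.sum_union_inter).symm
  have hint := inter_le_kap W i j
  refine price (W.p i j) (nu W i) (nu W j) (∑ v ∈ nbr W i ∪ nbr W j, W.x v) (kap W i j)
    (W.p_le i j) (nu_pos W hp) (nu_pos W hpj) ?_ ?_ ?_ (kap_nonneg W i j) ?_
  · exact Finset.sum_le_sum_of_subset_of_nonneg Finset.subset_union_left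
      (fun v _ _ => (W.x_pos v).le)
  · exact Finset.sum_le_sum_of_subset_of_nonneg Finset.subset_union_right
      (fun v _ _ => (W.x_pos v).le)
  · linarith
  · intro b1 b2 h1 h2 hs F1 F2 F12 hcut
    exact hno (feas_edge W i j hp b1 b2 h1 h2 hs F1 F2 F12
      (fun S hS => hcut.trans (kap_le W i j hS)))

open Classical in
/-- Template inequality, edges only. -/
theorem tineq_edges : TIneq (7 / 50) := by
  intro m W hW
  by_contra hno
  set X := ∑ i, W.x i with hX
  have h1 : ∀ i j, W.x i * W.x j * W.p i j ≤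
      1 / 8 * (if 0 < W.p i j then W.x i * W.x j / nu W i else 0)
      + 1 / 8 * (if 0 < W.p i j then W.x i * W.x j / nu W j else 0)
      + 25 / 3 * (if 0 < W.p i j then W.x i * W.x j * max 0 (3 / 50 - kap W i j) else 0) := by
    intro i j
    have hxx : 0 < W.x i * W.x j := mul_pos (W.x_pos i) (W.x_pos j)
    by_cases hp : 0 < W.p i j
    · simp only [hp, if_true]
      have h2 := mul_le_mul_of_nonneg_left (edge_price W hno i j hp) hxx.le
      refine h2.trans (le_of_eq ?_)
      ring
    · have hp0 : W.p i j = 0 := le_antisymm (not_lt.1 hp) (W.p_nonneg i j)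
      simp [hp0]
  have h2 : ∑ i, ∑ j, W.x i * W.x j * W.p i j ≤
      1 / 8 * (∑ i, ∑ j, (if 0 < W.p i j then W.x i * W.x j / nu W i else 0))
      + 1 / 8 * (∑ i, ∑ j, (if 0 < W.p i j then W.x i * W.x j / nu W j else 0))
      + 25 / 3 * (∑ i, ∑ j,
        (if 0 < W.p i j then W.x i * W.x j * max 0 (3 / 50 - kap W i j) else 0)) := by
    simp only [Finset.mul_sum, ← Finset.sum_add_distrib]
    exact Finset.sum_le_sum fun i _ => Finset.sum_le_sum fun j _ => h1 i j
  have h3 : ∑ i, ∑ j, (if 0 < W.p i j then W.x i * W.x j / nu W i else 0) ≤ X := by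
    refine Finset.sum_le_sum fun i _ => ?_
    have h4 : ∑ j, (if 0 < W.p i j then W.x i * W.x j / nu W i else 0)
        = W.x i * (nu W i / nu W i) := by
      have h5 : W.x i * (nu W i / nu W i) = W.x i * ((∑ v ∈ nbr W i, W.x v) / nu W i) := rfl
      rw [h5, Finset.sum_div, Finset.mul_sum, nbr, Finset.sum_filter]
      refine Finset.sum_congr rfl fun j _ => ?_
      split_ifs
      · ring
      · rfl
    rw [h4]
    have h6 : nu W i / nu W i ≤ 1 := div_self_le_one _
    nlinarith [W.x_pos i]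
  have h3' : ∑ i, ∑ j, (if 0 < W.p i j then W.x i * W.x j / nu W j else 0) ≤ X := by
    rw [Finset.sum_comm]
    refine le_trans (le_of_eq ?_) h3
    refine Finset.sum_congr rfl fun i _ => Finset.sum_congr rfl fun j _ => ?_
    rw [W.p_symm j i, mul_comm (W.x j) (W.x i)]
  have h7 := layer W (3 / 50) (by norm_num)
  have hX0 : (3 / 50 : ℝ) ^ 2 * X = 9 / 2500 * X := by norm_num
  rw [← hX, hX0] at h7
  linarith

end Pool.Agent.H54.TW
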